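import Pool.Agent.Q316.Tile.Local

/-!
# In a two-dimensional subshift all of whose points are periodic the periods are bounded
-/

set_option autoImplicit false

open Set Topology

namespace Pool.Agent.Q316.Tile

variable {α : Type} [TopologicalSpace α] [DiscreteTopology α]

/-- The shift. -/
def shift {α : Type} (q : ℤ × ℤ) (x : ℤ × ℤ → α) : ℤ × ℤ → α := fun p => x (p + q)

omit [TopologicalSpace α] [DiscreteTopology α] in
theorem locPer_shift {x : ℤ × ℤ → α} {q v : ℤ × ℤ} {R : ℤ} :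
    LocPer (shift q x) 0 R v ↔ LocPer x q R v := by
  unfold LocPer shift
  constructor
  · intro h p h1 h2
    have := h (p - q) (by rwa [sub_zero]) (by
      have e : p - q + v - 0 = p + v - q := by abel
      rwa [e])
    have e1 : p - q + v + q = p + v := by abel
    have e2 : p - q + q = p := by abel
    rwa [e1, e2] at this
  · intro h p h1 h2
    have := h (p + q) (by rw [add_sub_cancel_right]; rwa [sub_zero] at h1) (by
      have e : p + q + v - q = p + v - 0 := by abel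
      rwa [e])
    have e1 : p + q + v = p + v + q := by abel
    rwa [e1] at this

omit [TopologicalSpace α] [DiscreteTopology α] in
theorem shift_shift (q r : ℤ × ℤ) (x : ℤ × ℤ → α) : shift q (shift r x) = shift (q + r) x := by
  unfold shift; funext p; rw [add_assoc]

omit [TopologicalSpace α] [DiscreteTopology α] in
theorem shift_zero (x : ℤ × ℤ → α) : shift 0 x = x := by
  unfold shift; funext p; rw [add_zero]

omit [TopologicalSpace α] [DiscreteTopology α] in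
theorem per_shift {q v : ℤ × ℤ} {x : ℤ × ℤ → α} : Per (shift q x) v ↔ Per x v := by
  unfold Per shift
  constructor
  · intro h p
    have := h (p - q)
    have e1 : p - q + v + q = p + v := by abel
    have e2 : p - q + q = p := by abel
    rwa [e1, e2] at this
  · intro h p
    have := h (p + q)
    have e1 : p + q + v = p + v + q := by abel
    rwa [e1] at this

omit [DiscreteTopology α] in
theorem continuous_shift (q : ℤ × ℤ) : Continuous (shift q : (ℤ × ℤ → α) → _) := by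
  unfold shift
  exact continuous_pi fun p => continuous_apply _

/-- The box. -/
noncomputable def boxF (R : ℤ) : Finset (ℤ × ℤ) := Finset.Icc (-R) R ×ˢ Finset.Icc (-R) R

theorem mem_boxF {R : ℤ} {p : ℤ × ℤ} : p ∈ boxF R ↔ nm p ≤ R := by
  unfold boxF nm
  rw [Finset.mem_product, Finset.mem_Icc, Finset.mem_Icc, max_le_iff, abs_le, abs_le]

/-- Sets depending on finitely many coordinates are open. -/
theorem isOpen_of_fin (I : Finset (ℤ × ℤ)) (S : Set (ℤ × ℤ → α))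
    (h : ∀ x ∈ S, ∀ y, (∀ p ∈ I, y p = x p) → y ∈ S) : IsOpen S := by
  rw [isOpen_iff_mem_nhds]
  intro x hx
  have h1 : IsOpen {y : ℤ × ℤ → α | ∀ p ∈ I, y p = x p} := by
    have : {y : ℤ × ℤ → α | ∀ p ∈ I, y p = x p} = ⋂ p ∈ I, {y | y p = x p} := by
      ext y; simp
    rw [this]
    exact isOpen_biInter_finset fun p _ => (isOpen_discrete ({x p} : Set α)).preimage
      (continuous_apply (A := fun _ : ℤ × ℤ => α) p)
  exact Filter.mem_of_superset (h1.mem_nhds (by simp)) fun y hy => h x hx y hy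

theorem isClosed_of_fin (I : Finset (ℤ × ℤ)) (S : Set (ℤ × ℤ → α))
    (h : ∀ x ∈ S, ∀ y, (∀ p ∈ I, y p = x p) → y ∈ S) : IsClosed S := by
  rw [← isOpen_compl_iff]
  refine isOpen_of_fin I _ fun x hx y hy hyS => hx (h y hyS x fun p hp => (hy p hp).symm)

/-- Locally periodic at the origin. -/
def GG (α : Type) (N : ℕ) : Set (ℤ × ℤ → α) :=
  {x | ∃ v : ℤ × ℤ, v ≠ 0 ∧ nm v ≤ N ∧ LocPer x 0 (RR N) v}

theorem isOpen_GG (N : ℕ) : IsOpen (GG α N) := by
  refine isOpen_of_fin (boxF (RR N)) _ ?_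
  rintro x ⟨v, h0, h1, h2⟩ y hy
  refine ⟨v, h0, h1, fun p h3 h4 => ?_⟩
  rw [hy _ (mem_boxF.2 (by rwa [sub_zero] at h4)), hy _ (mem_boxF.2 (by rwa [sub_zero] at h3))]
  exact h2 p h3 h4

theorem isClosed_per (v : ℤ × ℤ) : IsClosed {x : ℤ × ℤ → α | Per x v} := by
  have : {x : ℤ × ℤ → α | Per x v} = ⋂ p, {x | x (p + v) = x p} := by
    ext x; simp [Per]
  rw [this]
  exact isClosed_iInter fun p => isClosed_eq (continuous_apply _) (continuous_apply _)

/-- bounded periods -/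
def Bdd (X : Set (ℤ × ℤ → α)) : Prop :=
  ∃ N : ℕ, ∀ x ∈ X, ∃ v : ℤ × ℤ, v ≠ 0 ∧ nm v ≤ N ∧ Per x v

omit [TopologicalSpace α] [DiscreteTopology α] in
theorem per_of_GG {N : ℕ} (hN : 1 ≤ N) {x : ℤ × ℤ → α} (h : ∀ q, shift q x ∈ GG α N) :
    ∃ v : ℤ × ℤ, v ≠ 0 ∧ nm v ≤ (KK N * N : ℕ) ∧ Per x v := by
  obtain ⟨v, h0, h1, h2⟩ := local_global (x := x) hN fun q => by
    obtain ⟨v, h0, h1, h2⟩ := h q
    exact ⟨v, h0, h1, locPer_shift.1 h2⟩
  exact ⟨v, h0, by push_cast; exact h1, h2⟩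

omit [TopologicalSpace α] [DiscreteTopology α] in
theorem bdd_one {X : Set (ℤ × ℤ → α)} (h : Bdd X) : ∃ N : ℕ, 1 ≤ N ∧
    ∀ x ∈ X, ∃ v : ℤ × ℤ, v ≠ 0 ∧ nm v ≤ N ∧ Per x v := by
  obtain ⟨N, hN⟩ := h
  refine ⟨N + 1, by omega, fun x hx => ?_⟩
  obtain ⟨v, h0, h1, h2⟩ := hN x hx
  exact ⟨v, h0, by push_cast; linarith, h2⟩

/-- **Bounded periods.** -/
theorem exists_bound [Finite α] (X : Set (ℤ × ℤ → α)) (hc : IsClosed X)
    (hs : ∀ x ∈ X, ∀ q, shift q x ∈ X) (hper : ∀ x ∈ X, ∃ v : ℤ × ℤ, v ≠ 0 ∧ Per x v) :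
    Bdd X := by
  classical
  by_contra hX
  let F : Set (Set (ℤ × ℤ → α)) := {Y | Y ⊆ X ∧ IsClosed Y ∧ (∀ x ∈ Y, ∀ q, shift q x ∈ Y) ∧
    ¬ Bdd Y}
  obtain ⟨Y, hY⟩ := zorn_superset F (by
    intro c hcF hchain
    rcases c.eq_empty_or_nonempty with rfl | hne
    · exact ⟨X, ⟨subset_rfl, hc, hs, hX⟩, by simp⟩
    · refine ⟨⋂₀ c, ⟨?_, ?_, ?_, ?_⟩, fun s hs => sInter_subset_of_mem hs⟩
      · obtain ⟨Y, hY⟩ := hne
        exact (sInter_subset_of_mem hY).trans (hcF hY).1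
      · exact isClosed_sInter fun Y hY => (hcF hY).2.1
      · intro x hx q Y hY
        exact (hcF hY).2.2.1 x (hx Y hY) q
      · intro hb
        obtain ⟨N, hN1, hN⟩ := bdd_one hb
        -- some member of the chain is inside `GG`
        have h1 : ∃ Y ∈ c, Y ⊆ GG α N := by
          by_contra hcon
          push Not at hcon
          have hne' : ∀ Y : c, ((Y : Set (ℤ × ℤ → α)) \ GG α N).Nonempty := fun Y => by
            obtain ⟨x, hx, hx'⟩ := not_subset.1 (hcon Y.1 Y.2)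
            exact ⟨x, hx, hx'⟩
          have : Nonempty c := hne.to_subtype
          have h2 : (⋂ Y : c, ((Y : Set (ℤ × ℤ → α)) \ GG α N)).Nonempty := by
            refine IsCompact.nonempty_iInter_of_directed_nonempty_isCompact_isClosed
              (fun Y : c => ((Y : Set (ℤ × ℤ → α)) \ GG α N)) ?_ hne' ?_ ?_
            · intro Y Z
              rcases hchain.total Y.2 Z.2 with h | h
              · exact ⟨Y, subset_rfl, fun x hx => ⟨h hx.1, hx.2⟩⟩
              · exact ⟨Z, fun x hx => ⟨h hx.1, hx.2⟩, subset_rfl⟩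
            · exact fun Y => ((hcF Y.2).2.1.sdiff (isOpen_GG N)).isCompact
            · exact fun Y => (hcF Y.2).2.1.sdiff (isOpen_GG N)
          obtain ⟨x, hx⟩ := h2
          have hx' : x ∈ ⋂₀ c := fun Y hY => (mem_iInter.1 hx ⟨Y, hY⟩).1
          obtain ⟨Y, hY⟩ := hne
          obtain ⟨v, h0, h1, h2⟩ := hN x hx'
          exact (mem_iInter.1 hx ⟨Y, hY⟩).2 ⟨v, h0, h1, h2.loc _ _⟩
        obtain ⟨Y, hY, hYG⟩ := h1
        refine (hcF hY).2.2.2 ⟨KK N * N, fun x hx => per_of_GG hN1 fun q => hYG ?_⟩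
        exact (hcF hY).2.2.1 x hx q)
  obtain ⟨⟨hYX, hYc, hYs, hYb⟩, hmin⟩ := hY
  have hYne : Y.Nonempty := by
    by_contra h
    rw [not_nonempty_iff_eq_empty] at h
    exact hYb ⟨0, by simp [h]⟩
  -- Baire
  have : CompactSpace Y := isCompact_iff_compactSpace.1 hYc.isCompact
  have : Nonempty Y := hYne.to_subtype
  have hB : ∃ v : {v : ℤ × ℤ // v ≠ 0}, (interior {y : Y | Per y.1 v.1}).Nonempty := by
    refine nonempty_interior_of_iUnion_of_closed (f := fun v : {v : ℤ × ℤ // v ≠ 0} =>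
      {y : Y | Per y.1 v.1}) (fun v => (isClosed_per v.1).preimage continuous_subtype_val) ?_
    rw [eq_univ_iff_forall]
    intro y
    obtain ⟨v, h0, h1⟩ := hper y.1 (hYX y.2)
    exact mem_iUnion.2 ⟨⟨v, h0⟩, h1⟩
  obtain ⟨⟨v, hv0⟩, y0, hy0⟩ := hB
  obtain ⟨U', hU1, hU2, hU3⟩ := mem_interior.1 hy0
  obtain ⟨U, hU, rfl⟩ := isOpen_induced_iff.1 hU2
  have hUper : ∀ x ∈ Y, x ∈ U → Per x v := fun x hx hxU => hU1 (show (⟨x, hx⟩ : Y) ∈ _ from hxU)
  -- the smaller subshift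
  let Y' : Set (ℤ × ℤ → α) := {x | x ∈ Y ∧ ∀ p, shift p x ∉ U}
  have hY'c : IsClosed Y' := by
    have : Y' = Y ∩ ⋂ p, (shift p) ⁻¹' Uᶜ := by ext x; simp [Y']
    rw [this]
    exact hYc.inter (isClosed_iInter fun p => hU.isClosed_compl.preimage (continuous_shift p))
  have hY's : ∀ x ∈ Y', ∀ q, shift q x ∈ Y' := fun x hx q =>
    ⟨hYs x hx.1 q, fun p => by rw [shift_shift]; exact hx.2 _⟩
  have hY'b : Bdd Y' := by
    by_contra hb
    have h1 : Y ⊆ Y' := hmin ⟨fun x hx => hYX hx.1, hY'c, hY's, hb⟩ fun x hx => hx.1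
    have h2 := (h1 y0.2).2 0
    rw [shift_zero] at h2
    exact h2 hU3
  obtain ⟨N, hN1, hN⟩ := bdd_one hY'b
  obtain ⟨n, hn⟩ := Int.eq_ofNat_of_zero_le (nm_nonneg v)
  apply hYb
  refine ⟨max (KK N * N) n, fun x hx => ?_⟩
  by_cases h : ∀ q, shift q x ∈ GG α N
  · obtain ⟨w, h0, h1, h2⟩ := per_of_GG hN1 h
    exact ⟨w, h0, h1.trans (by exact_mod_cast le_max_left _ _), h2⟩
  · push Not at h
    obtain ⟨q, hq⟩ := h
    have hz : shift q x ∉ Y' := by
      intro hz
      obtain ⟨w, h0, h1, h2⟩ := hN _ hz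
      exact hq ⟨w, h0, h1, h2.loc _ _⟩
    have h3 : ∃ p, shift p (shift q x) ∈ U := by
      by_contra hcon
      push Not at hcon
      exact hz ⟨hYs x hx q, hcon⟩
    obtain ⟨p, hp⟩ := h3
    have h4 := hUper _ (hYs _ (hYs x hx q) p) hp
    rw [shift_shift, per_shift] at h4
    refine ⟨v, hv0, ?_, h4⟩
    rw [hn]
    exact_mod_cast le_max_right _ _

end Pool.Agent.Q316.Tile
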