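import Pool.Agent.Q316.Tile.Finite

/-!
# Compactness: finite patterns and tilings
-/

set_option autoImplicit false

open Set Topology

namespace Pool.Agent.Q316.Tile

/-- `x` is a tiling of the plane by tiles in `S`. -/
def IsTiling (S : List T4) (x : ℤ × ℤ → T4) : Prop :=
  (∀ p, x p ∈ S) ∧ ∀ p, (x p).2.1 = (x (p + (1, 0))).2.2.2 ∧ (x p).1 = (x (p + (0, 1))).2.2.1

theorem gt_map {m : ℕ} (y : ℕ → ℕ → T4) {i j : ℕ} (hi : i < m) (hj : j < m) :
    gt ((List.range (m * m)).map fun k => y (k / m) (k % m)) (i * m + j) = y i j := by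
  have h1 : i * m + j < m * m := by
    calc i * m + j < i * m + m := by omega
      _ = (i + 1) * m := by ring
      _ ≤ m * m := Nat.mul_le_mul_right _ hi
  have h2 : (i * m + j) / m = i := by
    rw [mul_comm, Nat.mul_add_div (by omega), Nat.div_eq_of_lt hj, add_zero]
  have h3 : (i * m + j) % m = j := by
    rw [mul_comm, Nat.mul_add_mod, Nat.mod_eq_of_lt hj]
  unfold gt
  rw [List.getElem?_map, List.getElem?_range h1]
  simp [h2, h3]

theorem tt_of_tiling {S : List T4} {N w : ℕ} {x : ℤ × ℤ → T4} (hx : IsTiling S x)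
    (hw : ∀ v : ℤ × ℤ, v ≠ 0 → nm v ≤ N → ¬ LocPer x 0 w v) (c : ℕ) : TT S N w c := by
  set m := 2 * (w + c) + 1 with hm
  let y : ℕ → ℕ → T4 := fun i j => x ((i : ℤ) - (w + c : ℕ), (j : ℤ) - (w + c : ℕ))
  refine ⟨(List.range (m * m)).map fun k => y (k / m) (k % m), ?_, ?_, ?_⟩
  · rw [mem_allL]
    refine ⟨by simp [hm], fun a ha => ?_⟩
    obtain ⟨k, _, rfl⟩ := List.mem_map.1 ha
    exact hx.1 _
  · intro i hi j hj
    constructor
    · intro hi'
      rw [gt_map y hi hj, gt_map y hi' hj]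
      have h := (hx.2 ((i : ℤ) - (w + c : ℕ), (j : ℤ) - (w + c : ℕ))).1
      have e : (((i : ℤ) - (w + c : ℕ), (j : ℤ) - (w + c : ℕ)) : ℤ × ℤ) + (1, 0) =
          (((i + 1 : ℕ) : ℤ) - (w + c : ℕ), (j : ℤ) - (w + c : ℕ)) := by
        ext <;> simp <;> ring
      rw [e] at h
      exact h
    · intro hj'
      rw [gt_map y hi hj, gt_map y hi hj']
      have h := (hx.2 ((i : ℤ) - (w + c : ℕ), (j : ℤ) - (w + c : ℕ))).2
      have e : (((i : ℤ) - (w + c : ℕ), (j : ℤ) - (w + c : ℕ)) : ℤ × ℤ) + (0, 1) =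
          ((i : ℤ) - (w + c : ℕ), ((j + 1 : ℕ) : ℤ) - (w + c : ℕ)) := by
        ext <;> simp <;> ring
      rw [e] at h
      exact h
  · intro a ha b hb hab
    have key : ∀ v : ℤ × ℤ, v ≠ 0 → nm v ≤ N → ∃ p : ℤ × ℤ, nm p ≤ w ∧ nm (p + v) ≤ w ∧
        x (p + v) ≠ x p := by
      intro v h0 h1
      have := hw v h0 h1
      unfold LocPer at this
      push Not at this
      obtain ⟨p, h2, h3, h4⟩ := this
      exact ⟨p, by rwa [sub_zero] at h2, by rwa [sub_zero] at h3, h4⟩
    have bd : ∀ p : ℤ × ℤ, nm p ≤ w → -(w : ℤ) ≤ p.1 ∧ p.1 ≤ w ∧ -(w : ℤ) ≤ p.2 ∧ p.2 ≤ w := by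
      intro p hp
      have h1 := abs_le.1 ((le_max_left _ _).trans hp)
      have h2 := abs_le.1 ((le_max_right _ _).trans hp)
      exact ⟨h1.1, h1.2, h2.1, h2.2⟩
    constructor
    · obtain ⟨p, h1, h2, h3⟩ := key ((a : ℤ), (b : ℤ)) (by
        intro h
        have h4 := congrArg Prod.fst h
        have h5 := congrArg Prod.snd h
        simp only [Prod.fst_zero, Prod.snd_zero] at h4 h5
        omega) (by
        unfold nm; simp only [Nat.abs_cast]; exact max_le (by omega) (by omega))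
      obtain ⟨b1, b2, b3, b4⟩ := bd _ h1
      obtain ⟨c1, c2, c3, c4⟩ := bd _ h2
      simp only [Prod.fst_add, Prod.snd_add] at c1 c2 c3 c4
      obtain ⟨i, hi⟩ := Int.eq_ofNat_of_zero_le (show 0 ≤ p.1 + w by omega)
      obtain ⟨j, hj⟩ := Int.eq_ofNat_of_zero_le (show 0 ≤ p.2 + w by omega)
      refine ⟨i, by omega, j, by omega, by omega, by omega, ?_⟩
      rw [gt_map y (by omega) (by omega), gt_map y (by omega) (by omega)]
      have e1 : y (c + i + a) (c + j + b) = x (p + ((a : ℤ), (b : ℤ))) := by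
        show x _ = x _
        congr 1
        ext
        · simp only [Prod.fst_add]; push_cast; omega
        · simp only [Prod.snd_add]; push_cast; omega
      have e2 : y (c + i) (c + j) = x p := by
        show x _ = x _
        congr 1
        ext
        · push_cast; omega
        · push_cast; omega
      rw [e1, e2]
      exact h3
    · obtain ⟨p, h1, h2, h3⟩ := key ((a : ℤ), -(b : ℤ)) (by
        intro h
        have h4 := congrArg Prod.fst h
        have h5 := congrArg Prod.snd h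
        simp only [Prod.fst_zero, Prod.snd_zero] at h4 h5
        omega) (by
        unfold nm; simp only [abs_neg, Nat.abs_cast]; exact max_le (by omega) (by omega))
      obtain ⟨b1, b2, b3, b4⟩ := bd _ h1
      obtain ⟨c1, c2, c3, c4⟩ := bd _ h2
      simp only [Prod.fst_add, Prod.snd_add] at c1 c2 c3 c4
      obtain ⟨i, hi⟩ := Int.eq_ofNat_of_zero_le (show 0 ≤ p.1 + w by omega)
      obtain ⟨j, hj⟩ := Int.eq_ofNat_of_zero_le (show 0 ≤ p.2 - b + w by omega)
      refine ⟨i, by omega, j, by omega, by omega, by omega, ?_⟩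
      rw [gt_map y (by omega) (by omega), gt_map y (by omega) (by omega)]
      have e1 : y (c + i + a) (c + j) = x (p + ((a : ℤ), -(b : ℤ))) := by
        show x _ = x _
        congr 1
        ext
        · simp only [Prod.fst_add]; push_cast; omega
        · simp only [Prod.snd_add]; push_cast; omega
      have e2 : y (c + i) (c + j + b) = x p := by
        show x _ = x _
        congr 1
        ext
        · push_cast; omega
        · push_cast; omega
      rw [e1, e2]
      exact h3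

theorem tiling_of_tt {S : List T4} {N w : ℕ} (h : ∀ c, TT S N w c) :
    ∃ x, IsTiling S x ∧ ∀ v : ℤ × ℤ, v ≠ 0 → nm v ≤ N → ¬ LocPer x 0 w v := by
  classical
  let α := {t : T4 // t ∈ S}
  have : Finite α := (List.finite_toSet S).to_subtype
  let _ : TopologicalSpace α := ⊥
  have : DiscreteTopology α := ⟨rfl⟩
  let Z : ℕ → Set (ℤ × ℤ → α) := fun c => {x |
    (∀ p, nm p ≤ (w + c : ℕ) → nm (p + (1, 0)) ≤ (w + c : ℕ) →
      (x p).1.2.1 = (x (p + (1, 0))).1.2.2.2) ∧
    (∀ p, nm p ≤ (w + c : ℕ) → nm (p + (0, 1)) ≤ (w + c : ℕ) →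
      (x p).1.1 = (x (p + (0, 1))).1.2.2.1) ∧
    ∀ v : ℤ × ℤ, v ≠ 0 → nm v ≤ N → ¬ LocPer x 0 w v}
  have hclosed : ∀ c, IsClosed (Z c) := by
    intro c
    refine isClosed_of_fin (boxF (w + c : ℕ)) _ ?_
    rintro x ⟨h1, h2, h3⟩ y hy
    refine ⟨fun p hp hp' => ?_, fun p hp hp' => ?_, fun v h0 hv hloc => h3 v h0 hv ?_⟩
    · rw [hy p (mem_boxF.2 hp), hy _ (mem_boxF.2 hp')]; exact h1 p hp hp'
    · rw [hy p (mem_boxF.2 hp), hy _ (mem_boxF.2 hp')]; exact h2 p hp hp'
    · intro p hp hp'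
      have := hloc p hp hp'
      rw [sub_zero] at hp hp'
      rw [hy p (mem_boxF.2 (hp.trans (by push_cast; omega))),
        hy _ (mem_boxF.2 (hp'.trans (by push_cast; omega)))] at this
      exact this
  have hdec : ∀ c, Z (c + 1) ⊆ Z c := by
    rintro c x ⟨h1, h2, h3⟩
    refine ⟨fun p hp hp' => h1 p (hp.trans (by push_cast; omega)) (hp'.trans (by push_cast; omega)),
      fun p hp hp' => h2 p (hp.trans (by push_cast; omega)) (hp'.trans (by push_cast; omega)), h3⟩
  have hne : ∀ c, (Z c).Nonempty := by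
    intro c
    obtain ⟨t, ht, hmat, hnop⟩ := h c
    obtain ⟨hlen, hmem⟩ := mem_allL.1 ht
    set m := 2 * (w + c) + 1 with hm
    have hgt : ∀ k < m * m, gt t k ∈ S := by
      intro k hk
      have hk' : k < t.length := by rw [hlen]; exact hk
      unfold gt
      rw [List.getElem?_eq_getElem hk']
      exact hmem _ (List.getElem_mem hk')
    have hlt : ∀ i j : ℕ, i < m → j < m → i * m + j < m * m := by
      intro i j hi hj
      calc i * m + j < i * m + m := by omega
        _ = (i + 1) * m := by ring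
        _ ≤ m * m := Nat.mul_le_mul_right _ hi
    have hdef : gt t 0 ∈ S := hgt 0 (by positivity)
    let x : ℤ × ℤ → α := fun p =>
      if hp : (p.1 + (w + c : ℕ)).toNat < m ∧ (p.2 + (w + c : ℕ)).toNat < m then
        ⟨gt t ((p.1 + (w + c : ℕ)).toNat * m + (p.2 + (w + c : ℕ)).toNat),
          hgt _ (hlt _ _ hp.1 hp.2)⟩
      else ⟨gt t 0, hdef⟩
    have hx : ∀ (p : ℤ × ℤ) (i j : ℕ), i < m → j < m → p.1 + (w + c : ℕ) = i →
        p.2 + (w + c : ℕ) = j → (x p).1 = gt t (i * m + j) := by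
      intro p i j hi hj h1 h2
      have e1 : (p.1 + (w + c : ℕ)).toNat = i := by omega
      have e2 : (p.2 + (w + c : ℕ)).toNat = j := by omega
      simp only [x]
      rw [dif_pos ⟨by rw [e1]; exact hi, by rw [e2]; exact hj⟩]
      simp only [e1, e2]
    have bd : ∀ (r : ℕ) (p : ℤ × ℤ), nm p ≤ r → -(r : ℤ) ≤ p.1 ∧ p.1 ≤ r ∧ -(r : ℤ) ≤ p.2 ∧
        p.2 ≤ r := by
      intro r p hp
      have h1 := abs_le.1 ((le_max_left _ _).trans hp)
      have h2 := abs_le.1 ((le_max_right _ _).trans hp)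
      exact ⟨h1.1, h1.2, h2.1, h2.2⟩
    refine ⟨x, fun p hp hp' => ?_, fun p hp hp' => ?_, fun v h0 hv hloc => ?_⟩
    · obtain ⟨b1, b2, b3, b4⟩ := bd _ _ hp
      obtain ⟨c1, c2, c3, c4⟩ := bd _ _ hp'
      simp only [Prod.fst_add, Prod.snd_add] at c1 c2 c3 c4
      obtain ⟨i, hi⟩ := Int.eq_ofNat_of_zero_le (show 0 ≤ p.1 + (w + c : ℕ) by omega)
      obtain ⟨j, hj⟩ := Int.eq_ofNat_of_zero_le (show 0 ≤ p.2 + (w + c : ℕ) by omega)
      rw [hx p i j (by omega) (by omega) hi hj, hx (p + (1, 0)) (i + 1) j (by omega) (by omega)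
        (by simp only [Prod.fst_add]; push_cast at *; omega)
        (by simp only [Prod.snd_add]; push_cast at *; omega)]
      exact (hmat i (by omega) j (by omega)).1 (by omega)
    · obtain ⟨b1, b2, b3, b4⟩ := bd _ _ hp
      obtain ⟨c1, c2, c3, c4⟩ := bd _ _ hp'
      simp only [Prod.fst_add, Prod.snd_add] at c1 c2 c3 c4
      obtain ⟨i, hi⟩ := Int.eq_ofNat_of_zero_le (show 0 ≤ p.1 + (w + c : ℕ) by omega)
      obtain ⟨j, hj⟩ := Int.eq_ofNat_of_zero_le (show 0 ≤ p.2 + (w + c : ℕ) by omega)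
      rw [hx p i j (by omega) (by omega) hi hj, hx (p + (0, 1)) i (j + 1) (by omega) (by omega)
        (by simp only [Prod.fst_add]; push_cast at *; omega)
        (by simp only [Prod.snd_add]; push_cast at *; omega)]
      exact (hmat i (by omega) j (by omega)).2 (by omega)
    · -- a local period of norm at most `N`
      have main : ∀ u : ℤ × ℤ, u ≠ 0 → nm u ≤ N → 0 ≤ u.1 → ¬ LocPer x 0 w u := by
        intro u u0 uN u1 hl
        have hl' : ∀ p, nm p ≤ w → nm (p + u) ≤ w → (x (p + u)).1 = (x p).1 := by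
          intro p h1 h2
          rw [hl p (by rwa [sub_zero]) (by rwa [sub_zero])]
        have hb := bd N u uN
        have nmle : ∀ a b : ℤ, -(w : ℤ) ≤ a → a ≤ w → -(w : ℤ) ≤ b → b ≤ w →
            nm (a, b) ≤ w := fun a b h1 h2 h3 h4 => max_le (abs_le.2 ⟨h1, h2⟩) (abs_le.2 ⟨h3, h4⟩)
        obtain ⟨a, ha⟩ := Int.eq_ofNat_of_zero_le u1
        rcases le_total 0 u.2 with u2 | u2
        · obtain ⟨b, hb'⟩ := Int.eq_ofNat_of_zero_le u2
          obtain ⟨⟨i, hi, j, hj, hia, hjb, hne'⟩, -⟩ := hnop a (by omega) b (by omega) (by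
            by_contra h'
            exact u0 (Prod.ext (by rw [ha]; simp; omega) (by rw [hb']; simp; omega)))
          apply hne'
          have h3 := hl' ((i : ℤ) - w, (j : ℤ) - w)
            (nmle _ _ (by omega) (by omega) (by omega) (by omega))
            (by
              have : ((i : ℤ) - w, (j : ℤ) - w) + u = ((i : ℤ) - w + u.1, (j : ℤ) - w + u.2) := rfl
              rw [this]
              exact nmle _ _ (by omega) (by omega) (by omega) (by omega))
          rw [hx _ (c + i + a) (c + j + b) (by omega) (by omega)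
            (by simp only [Prod.fst_add]; push_cast; omega)
            (by simp only [Prod.snd_add]; push_cast; omega),
            hx _ (c + i) (c + j) (by omega) (by omega) (by push_cast; omega)
            (by push_cast; omega)] at h3
          exact h3
        · obtain ⟨b, hb'⟩ := Int.eq_ofNat_of_zero_le (neg_nonneg.2 u2)
          obtain ⟨-, ⟨i, hi, j, hj, hia, hjb, hne'⟩⟩ := hnop a (by omega) b (by omega) (by
            by_contra h'
            exact u0 (Prod.ext (by rw [ha]; simp; omega) (by simp; omega)))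
          apply hne'
          have h3 := hl' ((i : ℤ) - w, (j : ℤ) + b - w)
            (nmle _ _ (by omega) (by omega) (by omega) (by omega))
            (by
              have : ((i : ℤ) - w, (j : ℤ) + b - w) + u =
                ((i : ℤ) - w + u.1, (j : ℤ) + b - w + u.2) := rfl
              rw [this]
              exact nmle _ _ (by omega) (by omega) (by omega) (by omega))
          rw [hx _ (c + i + a) (c + j) (by omega) (by omega)
            (by simp only [Prod.fst_add]; push_cast; omega)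
            (by simp only [Prod.snd_add]; push_cast; omega),
            hx _ (c + i) (c + j + b) (by omega) (by omega) (by push_cast; omega)
            (by push_cast; omega)] at h3
          exact h3
      rcases le_total 0 v.1 with h1 | h1
      · exact main v h0 hv h1 hloc
      · exact main (-v) (neg_ne_zero.2 h0) (by rwa [nm_neg]) (by simpa using h1) hloc.neg
  obtain ⟨x, hx⟩ := IsCompact.nonempty_iInter_of_sequence_nonempty_isCompact_isClosed Z hdec hne
    (hclosed 0).isCompact hclosed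
  have hx' := fun c => mem_iInter.1 hx c
  refine ⟨fun p => (x p).1, ⟨fun p => (x p).2, fun p => ?_⟩, fun v h0 hv hloc => ?_⟩
  · obtain ⟨n, hn⟩ := Int.eq_ofNat_of_zero_le (nm_nonneg p)
    have h10 : nm (p + (1, 0)) ≤ (w + (n + 1) : ℕ) := by
      refine (nm_add _ _).trans ?_
      have : nm ((1, 0) : ℤ × ℤ) = 1 := by simp [nm]
      rw [this, hn]; push_cast; omega
    have h01 : nm (p + (0, 1)) ≤ (w + (n + 1) : ℕ) := by
      refine (nm_add _ _).trans ?_
      have : nm ((0, 1) : ℤ × ℤ) = 1 := by simp [nm]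
      rw [this, hn]; push_cast; omega
    have hp : nm p ≤ (w + (n + 1) : ℕ) := by rw [hn]; push_cast; omega
    exact ⟨(hx' (n + 1)).1 p hp h10, (hx' (n + 1)).2.1 p hp h01⟩
  · exact (hx' 0).2.2 v h0 hv fun p h1 h2 => Subtype.ext (hloc p h1 h2)

theorem tt_iff {S : List T4} {N w : ℕ} : (∃ x, IsTiling S x ∧
    ∀ v : ℤ × ℤ, v ≠ 0 → nm v ≤ N → ¬ LocPer x 0 w v) ↔ ∀ c, TT S N w c :=
  ⟨fun ⟨_, hx, hw⟩ => tt_of_tiling hx hw, tiling_of_tt⟩

/-- `S` tiles the plane, and all tilings are periodic. -/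
def PTile (S : List T4) : Prop :=
  (∃ x, IsTiling S x) ∧ ∀ x, IsTiling S x → ∃ v : ℤ × ℤ, v ≠ 0 ∧ Per x v

theorem tiling_shift {S : List T4} {x : ℤ × ℤ → T4} (h : IsTiling S x) (q : ℤ × ℤ) :
    IsTiling S (shift q x) := by
  refine ⟨fun p => h.1 _, fun p => ?_⟩
  have h1 := h.2 (p + q)
  have e1 : p + q + (1, 0) = p + (1, 0) + q := by abel
  have e2 : p + q + (0, 1) = p + (0, 1) + q := by abel
  rw [e1, e2] at h1
  exact h1

theorem ptile_bound {S : List T4} (h : ∀ x, IsTiling S x → ∃ v : ℤ × ℤ, v ≠ 0 ∧ Per x v) :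
    ∃ N : ℕ, ∀ x, IsTiling S x → ∃ v : ℤ × ℤ, v ≠ 0 ∧ nm v ≤ N ∧ Per x v := by
  let α := {t : T4 // t ∈ S}
  have : Finite α := (List.finite_toSet S).to_subtype
  let _ : TopologicalSpace α := ⊥
  have : DiscreteTopology α := ⟨rfl⟩
  let X : Set (ℤ × ℤ → α) := {x | IsTiling S fun p => (x p).1}
  have hXc : IsClosed X := by
    have : X = ⋂ p : ℤ × ℤ, {x : ℤ × ℤ → α | (x p).1.2.1 = (x (p + (1, 0))).1.2.2.2 ∧
        (x p).1.1 = (x (p + (0, 1))).1.2.2.1} := by
      ext x
      simp only [X, mem_ofPred_eq, mem_iInter]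
      exact ⟨fun h => h.2, fun h => ⟨fun p => (x p).2, h⟩⟩
    rw [this]
    refine isClosed_iInter fun p => isClosed_of_fin {p, p + (1, 0), p + (0, 1)} _ ?_
    rintro x ⟨h1, h2⟩ y hy
    show (y p).1.2.1 = (y (p + (1, 0))).1.2.2.2 ∧ (y p).1.1 = (y (p + (0, 1))).1.2.2.1
    rw [hy p (by simp), hy (p + (1, 0)) (by simp), hy (p + (0, 1)) (by simp)]
    exact ⟨h1, h2⟩
  have hlift : ∀ (x : ℤ × ℤ → α) (v : ℤ × ℤ), Per (fun p => (x p).1) v ↔ Per x v := by
    intro x v
    exact ⟨fun h p => Subtype.ext (h p), fun h p => congrArg Subtype.val (h p)⟩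
  obtain ⟨N, hN⟩ := exists_bound X hXc (fun x hx q => tiling_shift hx q) (by
    intro x hx
    obtain ⟨v, h0, h1⟩ := h _ hx
    exact ⟨v, h0, (hlift x v).1 h1⟩)
  refine ⟨N, fun x hx => ?_⟩
  obtain ⟨v, h0, h1, h2⟩ := hN (fun p => ⟨x p, hx.1 p⟩) hx
  exact ⟨v, h0, h1, (hlift _ v).2 h2⟩

/-- The `Σ⁰₃` form. -/
theorem ptile_iff (S : List T4) : PTile S ↔ ∃ N, ∀ w, ∃ c, TT S 0 0 w ∧ ¬ TT S N w c := by
  constructor
  · rintro ⟨⟨x, hx⟩, hper⟩
    obtain ⟨N, hN⟩ := ptile_bound hper
    refine ⟨N, fun w => ?_⟩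
    have h1 : TT S 0 0 w := by
      refine tt_of_tiling hx (fun v h0 h1 => ?_) w
      exact absurd (nm_eq_zero (le_antisymm (by simpa using h1) (nm_nonneg v))) h0
    have h2 : ∃ c, ¬ TT S N w c := by
      by_contra hcon
      push Not at hcon
      obtain ⟨y, hy, hw⟩ := tiling_of_tt hcon
      obtain ⟨v, h0, h3, h4⟩ := hN y hy
      exact hw v h0 h3 (h4.loc _ _)
    obtain ⟨c, hc⟩ := h2
    exact ⟨c, h1, hc⟩
  · rintro ⟨N, hN⟩
    have h1 : ∀ w, TT S 0 0 w := fun w => (hN w).choose_spec.1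
    obtain ⟨x, hx, -⟩ := tiling_of_tt h1
    refine ⟨⟨x, hx⟩, fun y hy => ?_⟩
    have h2 : ∀ w : ℕ, ∃ v : ℤ × ℤ, v ≠ 0 ∧ nm v ≤ N ∧ LocPer y 0 w v := by
      intro w
      by_contra hcon
      push Not at hcon
      obtain ⟨c, -, hc⟩ := hN w
      exact hc (tt_of_tiling hy hcon c)
    -- pigeonhole
    by_contra hcon
    push Not at hcon
    have h3 : ∀ v : ℤ × ℤ, ∃ w : ℕ, v ≠ 0 → ¬ LocPer y 0 w v := by
      intro v
      by_cases hv : v = 0
      · exact ⟨0, fun h => absurd hv h⟩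
      · have h4 : ∃ p, y (p + v) ≠ y p := by
          have := hcon v hv
          unfold Per at this
          push Not at this
          exact this
        obtain ⟨p, hp⟩ := h4
        obtain ⟨n, hn⟩ := Int.eq_ofNat_of_zero_le (nm_nonneg p)
        obtain ⟨k, hk⟩ := Int.eq_ofNat_of_zero_le (nm_nonneg (p + v))
        refine ⟨n + k, fun _ hl => hp (hl p ?_ ?_)⟩
        · rw [sub_zero, hn]; push_cast; omega
        · rw [sub_zero, hk]; push_cast; omega
    choose f hf using h3
    obtain ⟨v, h0, h4, h5⟩ := h2 ((boxF N).sup f)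
    refine hf v h0 (h5.mono ?_)
    have h6 : f v ≤ (boxF N).sup f := Finset.le_sup (f := f) (mem_boxF.2 h4)
    have h7 : nm ((0 : ℤ × ℤ) - 0) = 0 := by simp [nm]
    rw [h7]
    omega

end Pool.Agent.Q316.Tile
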