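import Pool.Agent.Q316.Tile.Bound
import Pool.Agent.Helper578.JD.Comp
import Pool.Agent.Helper578.JD.RE

/-!
# Finite patterns of Wang tiles: decidability and compactness
-/

set_option autoImplicit false

open Set Topology

namespace Pool.Agent.Q316.Tile

open Pool.Agent.Helper578.JD

/-! ## Decidable predicates -/

section DP

variable {α β : Type*} [Primcodable α] [Primcodable β]

/-- decidable predicates -/
def DP (p : α → Prop) : Prop := REPred p ∧ REPred fun a => ¬ p a

theorem DP.of_eq {p q : α → Prop} (h : DP p) (hpq : ∀ a, p a ↔ q a) : DP q :=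
  ⟨h.1.of_eq hpq, h.2.of_eq fun a => not_congr (hpq a)⟩

theorem DP.not {p : α → Prop} (h : DP p) : DP fun a => ¬ p a :=
  ⟨h.2, h.1.of_eq fun _ => not_not.symm⟩

theorem DP.and {p q : α → Prop} (hp : DP p) (hq : DP q) : DP fun a => p a ∧ q a :=
  ⟨RE.and hp.1 hq.1, (RE.or hp.2 hq.2).of_eq fun a => by tauto⟩

theorem DP.or {p q : α → Prop} (hp : DP p) (hq : DP q) : DP fun a => p a ∨ q a :=
  ⟨RE.or hp.1 hq.1, (RE.and hp.2 hq.2).of_eq fun a => by tauto⟩

theorem DP.imp {p q : α → Prop} (hp : DP p) (hq : DP q) : DP fun a => p a → q a :=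
  (hp.not.or hq).of_eq fun a => by tauto

theorem DP.eq {f g : α → β} (hf : Computable f) (hg : Computable g) : DP fun a => f a = g a :=
  ⟨RE.eq hf hg, RE.ne hf hg⟩

theorem DP.lt {f g : α → ℕ} (hf : Computable f) (hg : Computable g) : DP fun a => f a < g a :=
  ⟨RE.lt hf hg, (RE.le hg hf).of_eq fun a => by rw [not_lt]⟩

theorem DP.all_lt {p : α → ℕ → Prop} (hp : DP fun x : α × ℕ => p x.1 x.2) {f : α → ℕ}
    (hf : Computable f) : DP fun a => ∀ i < f a, p a i := by
  refine ⟨RE.all_lt hp.1 hf, ?_⟩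
  have h : REPred fun a => ∃ i, i < f a ∧ ¬ p a i := by
    refine RE.ex (p := fun (a : α) (i : ℕ) => i < f a ∧ ¬ p a i) ?_
    exact RE.and (RE.lt Computable.snd (hf.comp Computable.fst)) hp.2
  exact h.of_eq fun a => by push Not; rfl

theorem DP.ex_lt {p : α → ℕ → Prop} (hp : DP fun x : α × ℕ => p x.1 x.2) {f : α → ℕ}
    (hf : Computable f) : DP fun a => ∃ i < f a, p a i :=
  (DP.all_lt (p := fun a i => ¬ p a i) hp.not hf).not.of_eq fun a => by push Not; rfl

theorem DP.ex_mem {p : α → β → Prop} (hp : DP fun x : α × β => p x.1 x.2) {l : α → List β}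
    (hl : Computable l) : DP fun a => ∃ b ∈ l a, p a b :=
  ⟨RE.ex_mem hp.1 hl, (RE.all_mem (p := fun a b => ¬ p a b) hp.2 hl).of_eq fun a => by
    push Not; rfl⟩

theorem DP.computablePred {p : α → Prop} (h : DP p) : ComputablePred p := RE.cp_of_re h.1 h.2

theorem DP.comp {p : β → Prop} (h : DP p) {f : α → β} (hf : Computable f) :
    DP fun a => p (f a) := ⟨RE.comp h.1 hf, RE.comp h.2 hf⟩

end DP

/-! ## Finite patterns -/

/-- Wang tiles: the colours of the north, east, south and west edges. -/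
abbrev T4 := ℕ × ℕ × ℕ × ℕ

/-- all lists of length `n` with entries in `S` -/
def allL (S : List T4) : ℕ → List (List T4)
  | 0 => [[]]
  | n + 1 => (allL S n).flatMap fun l => S.map fun a => a :: l

theorem mem_allL {S : List T4} {n : ℕ} {l : List T4} :
    l ∈ allL S n ↔ l.length = n ∧ ∀ a ∈ l, a ∈ S := by
  induction n generalizing l with
  | zero =>
    simp only [allL, List.mem_singleton]
    constructor
    · rintro rfl; simp
    · rintro ⟨h, _⟩; exact List.length_eq_zero_iff.1 h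
  | succ n ih =>
    simp only [allL, List.mem_flatMap, List.mem_map]
    constructor
    · rintro ⟨l', h1, a, h2, rfl⟩
      obtain ⟨h3, h4⟩ := ih.1 h1
      refine ⟨by simp [h3], fun b hb => ?_⟩
      rcases List.mem_cons.1 hb with rfl | hb
      exacts [h2, h4 b hb]
    · rintro ⟨h1, h2⟩
      cases l with
      | nil => simp at h1
      | cons a l =>
        exact ⟨l, ih.2 ⟨by simpa using h1, fun b hb => h2 b (List.mem_cons_of_mem _ hb)⟩, a,
          h2 a (List.mem_cons_self), rfl⟩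

theorem primrec_allL : Primrec fun p : List T4 × ℕ => allL p.1 p.2 := by
  have h := Primrec.nat_rec' (f := fun p : List T4 × ℕ => p.2) (g := fun _ => ([[]] : List (List T4)))
    (h := fun (p : List T4 × ℕ) (y : ℕ × List (List T4)) =>
      y.2.flatMap fun l => p.1.map fun a => a :: l)
    Primrec.snd (Primrec.const _) (by
      refine Primrec.list_flatMap (f := fun x : (List T4 × ℕ) × (ℕ × List (List T4)) => x.2.2)
        (g := fun x l => x.1.1.map fun a => a :: l) (Primrec.snd.comp Primrec.snd) ?_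
      refine Primrec.list_map (f := fun x : ((List T4 × ℕ) × (ℕ × List (List T4))) × List T4 =>
        x.1.1.1) (g := fun x a => a :: x.2)
        (Primrec.fst.comp (Primrec.fst.comp Primrec.fst)) ?_
      exact Primrec.list_cons.comp Primrec.snd (Primrec.snd.comp Primrec.fst))
  refine h.of_eq fun p => ?_
  obtain ⟨S, n⟩ := p
  simp only
  induction n with
  | zero => rfl
  | succ n ih => simp only [allL]; rw [← ih]

/-- the entry with number `k` -/
def gt (t : List T4) (k : ℕ) : T4 := (t[k]?).getD (0, 0, 0, 0)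

@[fun_prop]
theorem comp_gt {α : Type*} [Primcodable α] {f : α → List T4} {g : α → ℕ} (hf : Computable f)
    (hg : Computable g) : Computable fun a => gt (f a) (g a) := by
  have h : Computable₂ fun (t : List T4) (k : ℕ) => gt t k :=
    Computable.option_getD (Computable.list_getElem?.comp Computable.fst Computable.snd)
      (Computable.const _)
  exact h.comp hf hg

/-- the pattern matches -/
def matchL (t : List T4) (m : ℕ) : Prop := ∀ i < m, ∀ j < m,
  (i + 1 < m → (gt t (i * m + j)).2.1 = (gt t ((i + 1) * m + j)).2.2.2) ∧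
  (j + 1 < m → (gt t (i * m + j)).1 = (gt t (i * m + (j + 1))).2.2.1)

/-- no short period in the window -/
def noper (t : List T4) (m c L N : ℕ) : Prop := ∀ a < N + 1, ∀ b < N + 1, 0 < a + b →
  (∃ i < L, ∃ j < L, i + a < L ∧ j + b < L ∧
    ¬ gt t ((c + i + a) * m + (c + j + b)) = gt t ((c + i) * m + (c + j))) ∧
  (∃ i < L, ∃ j < L, i + a < L ∧ j + b < L ∧
    ¬ gt t ((c + i + a) * m + (c + j)) = gt t ((c + i) * m + (c + j + b)))

/-- the finite condition -/
def TT (S : List T4) (N w c : ℕ) : Prop :=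
  ∃ t ∈ allL S ((2 * (w + c) + 1) * (2 * (w + c) + 1)),
    matchL t (2 * (w + c) + 1) ∧ noper t (2 * (w + c) + 1) c (2 * w + 1) N

theorem dp_matchL {α : Type*} [Primcodable α] {f : α → List T4} {g : α → ℕ} (hf : Computable f)
    (hg : Computable g) : DP fun a => matchL (f a) (g a) := by
  unfold matchL
  refine DP.all_lt (p := fun (a : α) (i : ℕ) => ∀ j < g a,
    (i + 1 < g a → (gt (f a) (i * g a + j)).2.1 = (gt (f a) ((i + 1) * g a + j)).2.2.2) ∧
    (j + 1 < g a → (gt (f a) (i * g a + j)).1 = (gt (f a) (i * g a + (j + 1))).2.2.1)) ?_ hg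
  refine DP.all_lt (p := fun (x : α × ℕ) (j : ℕ) =>
    (x.2 + 1 < g x.1 → (gt (f x.1) (x.2 * g x.1 + j)).2.1 =
      (gt (f x.1) ((x.2 + 1) * g x.1 + j)).2.2.2) ∧
    (j + 1 < g x.1 → (gt (f x.1) (x.2 * g x.1 + j)).1 =
      (gt (f x.1) (x.2 * g x.1 + (j + 1))).2.2.1)) ?_ (f := fun x => g x.1) (by fun_prop)
  refine DP.and (DP.imp (DP.lt (by fun_prop) (by fun_prop)) (DP.eq (by fun_prop) (by fun_prop)))
    (DP.imp (DP.lt (by fun_prop) (by fun_prop)) (DP.eq (by fun_prop) (by fun_prop)))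

theorem dp_ex2 {α : Type*} [Primcodable α] {p : α → ℕ → ℕ → Prop} {L : α → ℕ}
    (hL : Computable L) (hp : DP fun x : (α × ℕ) × ℕ => p x.1.1 x.1.2 x.2) :
    DP fun a => ∃ i < L a, ∃ j < L a, p a i j := by
  refine DP.ex_lt (p := fun (a : α) (i : ℕ) => ∃ j < L a, p a i j) ?_ hL
  exact DP.ex_lt (p := fun (x : α × ℕ) (j : ℕ) => p x.1 x.2 j) hp (f := fun x => L x.1)
    (by fun_prop)

theorem dp_noper {α : Type*} [Primcodable α] {f : α → List T4} {g c L N : α → ℕ}
    (hf : Computable f) (hg : Computable g) (hc : Computable c) (hL : Computable L)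
    (hN : Computable N) : DP fun a => noper (f a) (g a) (c a) (L a) (N a) := by
  unfold noper
  refine DP.all_lt (p := fun (z : α) (a : ℕ) => ∀ b < N z + 1, 0 < a + b →
    (∃ i < L z, ∃ j < L z, i + a < L z ∧ j + b < L z ∧
      ¬ gt (f z) ((c z + i + a) * g z + (c z + j + b)) = gt (f z) ((c z + i) * g z + (c z + j))) ∧
    (∃ i < L z, ∃ j < L z, i + a < L z ∧ j + b < L z ∧
      ¬ gt (f z) ((c z + i + a) * g z + (c z + j)) = gt (f z) ((c z + i) * g z + (c z + j + b))))
    ?_ (by fun_prop)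
  refine DP.all_lt (p := fun (x : α × ℕ) (b : ℕ) => 0 < x.2 + b →
    (∃ i < L x.1, ∃ j < L x.1, i + x.2 < L x.1 ∧ j + b < L x.1 ∧
      ¬ gt (f x.1) ((c x.1 + i + x.2) * g x.1 + (c x.1 + j + b)) =
        gt (f x.1) ((c x.1 + i) * g x.1 + (c x.1 + j))) ∧
    (∃ i < L x.1, ∃ j < L x.1, i + x.2 < L x.1 ∧ j + b < L x.1 ∧
      ¬ gt (f x.1) ((c x.1 + i + x.2) * g x.1 + (c x.1 + j)) =
        gt (f x.1) ((c x.1 + i) * g x.1 + (c x.1 + j + b)))) ?_ (f := fun x => N x.1 + 1)
    (by fun_prop)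
  refine DP.imp (DP.lt (by fun_prop) (by fun_prop)) (DP.and ?_ ?_)
  · exact dp_ex2 (α := (α × ℕ) × ℕ) (L := fun x => L x.1.1)
      (p := fun x i j => i + x.1.2 < L x.1.1 ∧ j + x.2 < L x.1.1 ∧
      ¬ gt (f x.1.1) ((c x.1.1 + i + x.1.2) * g x.1.1 + (c x.1.1 + j + x.2)) =
        gt (f x.1.1) ((c x.1.1 + i) * g x.1.1 + (c x.1.1 + j))) (by fun_prop)
      (DP.and (DP.lt (by fun_prop) (by fun_prop)) (DP.and (DP.lt (by fun_prop) (by fun_prop))
        (DP.eq (by fun_prop) (by fun_prop)).not))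
  · exact dp_ex2 (α := (α × ℕ) × ℕ) (L := fun x => L x.1.1)
      (p := fun x i j => i + x.1.2 < L x.1.1 ∧ j + x.2 < L x.1.1 ∧
      ¬ gt (f x.1.1) ((c x.1.1 + i + x.1.2) * g x.1.1 + (c x.1.1 + j)) =
        gt (f x.1.1) ((c x.1.1 + i) * g x.1.1 + (c x.1.1 + j + x.2))) (by fun_prop)
      (DP.and (DP.lt (by fun_prop) (by fun_prop)) (DP.and (DP.lt (by fun_prop) (by fun_prop))
        (DP.eq (by fun_prop) (by fun_prop)).not))

theorem dp_TT {α : Type*} [Primcodable α] {f : α → List T4} {N w c : α → ℕ}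
    (hf : Computable f) (hN : Computable N) (hw : Computable w) (hc : Computable c) :
    DP fun a => TT (f a) (N a) (w a) (c a) := by
  unfold TT
  refine DP.ex_mem (p := fun (a : α) (t : List T4) => matchL t (2 * (w a + c a) + 1) ∧
    noper t (2 * (w a + c a) + 1) (c a) (2 * w a + 1) (N a)) ?_
    (l := fun a => allL (f a) ((2 * (w a + c a) + 1) * (2 * (w a + c a) + 1))) ?_
  · exact DP.and (dp_matchL (by fun_prop) (by fun_prop))
      (dp_noper (by fun_prop) (by fun_prop) (by fun_prop) (by fun_prop) (by fun_prop))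
  · exact primrec_allL.to_comp.comp
      (g := fun a => (f a, (2 * (w a + c a) + 1) * (2 * (w a + c a) + 1))) (by fun_prop)

end Pool.Agent.Q316.Tile
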