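import Mathlib

/-!
# Configurations all of whose large windows have a short period are periodic
-/

set_option autoImplicit false

namespace Pool.Agent.Q316.Tile

/-- The maximum norm on `ℤ × ℤ`. -/
def nm (p : ℤ × ℤ) : ℤ := max |p.1| |p.2|

theorem nm_nonneg (p : ℤ × ℤ) : 0 ≤ nm p := (abs_nonneg _).trans (le_max_left _ _)

theorem nm_add (p q : ℤ × ℤ) : nm (p + q) ≤ nm p + nm q := by
  unfold nm
  simp only [Prod.fst_add, Prod.snd_add]
  refine max_le ((abs_add_le _ _).trans (add_le_add (le_max_left _ _) (le_max_left _ _)))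
    ((abs_add_le _ _).trans (add_le_add (le_max_right _ _) (le_max_right _ _)))

theorem nm_neg (p : ℤ × ℤ) : nm (-p) = nm p := by simp [nm]

theorem nm_smul (k : ℤ) (p : ℤ × ℤ) : nm (k • p) = |k| * nm p := by
  unfold nm
  simp only [Prod.smul_fst, Prod.smul_snd, smul_eq_mul, abs_mul]
  rw [mul_max_of_nonneg _ _ (abs_nonneg k)]

theorem nm_eq_zero {p : ℤ × ℤ} (h : nm p = 0) : p = 0 := by
  unfold nm at h
  have h1 : |p.1| ≤ 0 := h ▸ le_max_left _ _
  have h2 : |p.2| ≤ 0 := h ▸ le_max_right _ _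
  exact Prod.ext (abs_nonpos_iff.1 h1) (abs_nonpos_iff.1 h2)

def det (v w : ℤ × ℤ) : ℤ := v.1 * w.2 - v.2 * w.1

theorem det_trans {a b c : ℤ × ℤ} (hb : b ≠ 0) (h1 : det a b = 0) (h2 : det b c = 0) :
    det a c = 0 := by
  unfold det at *
  have h3 : b.1 * (a.1 * c.2 - a.2 * c.1) = 0 := by linear_combination a.1 * h2 + c.1 * h1
  have h4 : b.2 * (a.1 * c.2 - a.2 * c.1) = 0 := by linear_combination c.2 * h1 + a.2 * h2
  rcases mul_eq_zero.1 h3 with h5 | h5
  · rcases mul_eq_zero.1 h4 with h6 | h6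
    · exact absurd (Prod.ext h5 h6) hb
    · exact h6
  · exact h5

variable {α : Type*}

/-- `v` is a period of `x`. -/
def Per (x : ℤ × ℤ → α) (v : ℤ × ℤ) : Prop := ∀ p, x (p + v) = x p

/-- `v` is a period of `x` inside the window with centre `q` and radius `R`. -/
def LocPer (x : ℤ × ℤ → α) (q : ℤ × ℤ) (R : ℤ) (v : ℤ × ℤ) : Prop :=
  ∀ p, nm (p - q) ≤ R → nm (p + v - q) ≤ R → x (p + v) = x p

theorem Per.loc {x : ℤ × ℤ → α} {v : ℤ × ℤ} (h : Per x v) (q : ℤ × ℤ) (R : ℤ) :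
    LocPer x q R v := fun p _ _ => h p

theorem LocPer.neg {x : ℤ × ℤ → α} {q v : ℤ × ℤ} {R : ℤ} (h : LocPer x q R v) :
    LocPer x q R (-v) := by
  intro p h1 h2
  have := h (p + -v) h2 (by rw [neg_add_cancel_right]; exact h1)
  rw [neg_add_cancel_right] at this
  exact this.symm

theorem LocPer.mono {x : ℤ × ℤ → α} {q q' v : ℤ × ℤ} {R R' : ℤ} (h : LocPer x q R v)
    (hR : R' + nm (q' - q) ≤ R) : LocPer x q' R' v := by
  intro p h1 h2
  have e1 : p - q = (p - q') + (q' - q) := by abel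
  have e2 : p + v - q = (p + v - q') + (q' - q) := by abel
  refine h p ?_ ?_
  · rw [e1]; exact (nm_add _ _).trans (by linarith)
  · rw [e2]; exact (nm_add _ _).trans (by linarith)

/-- Walking along a local period. -/
theorem walk_nat {x : ℤ × ℤ → α} {q v : ℤ × ℤ} {R : ℤ} (h : LocPer x q R v) (c : ℕ) :
    ∀ p, nm (p - q) + c * nm v ≤ R → x (p + (c : ℤ) • v) = x p := by
  induction c with
  | zero => intro p _; simp
  | succ c ih =>
    intro p hp
    have hv := nm_nonneg v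
    push_cast at hp
    have h1 : nm (p + (c : ℤ) • v - q) ≤ nm (p - q) + c * nm v := by
      have e : p + (c : ℤ) • v - q = (p - q) + (c : ℤ) • v := by abel
      rw [e]
      refine (nm_add _ _).trans ?_
      rw [nm_smul, Nat.abs_cast]
    have h2 : nm (p + ((c + 1 : ℕ) : ℤ) • v - q) ≤ nm (p - q) + (c + 1) * nm v := by
      have e : p + ((c + 1 : ℕ) : ℤ) • v - q = (p - q) + ((c + 1 : ℕ) : ℤ) • v := by abel
      rw [e]
      refine (nm_add _ _).trans ?_
      rw [nm_smul, Nat.abs_cast]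
      push_cast
      exact le_rfl
    have e : p + ((c + 1 : ℕ) : ℤ) • v = (p + (c : ℤ) • v) + v := by
      push_cast
      rw [add_smul, one_smul, add_assoc]
    rw [e, h (p + (c : ℤ) • v) (by linarith) (by rw [← e]; linarith)]
    exact ih p (by linarith)

theorem walk {x : ℤ × ℤ → α} {q v : ℤ × ℤ} {R : ℤ} (h : LocPer x q R v) (c : ℤ) (p : ℤ × ℤ)
    (hp : nm (p - q) + |c| * nm v ≤ R) : x (p + c • v) = x p := by
  rcases le_total 0 c with hc | hc
  · obtain ⟨n, rfl⟩ := Int.eq_ofNat_of_zero_le hc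
    exact walk_nat h n p (by simpa using hp)
  · obtain ⟨n, hn⟩ := Int.eq_ofNat_of_zero_le (neg_nonneg.2 hc)
    have hc' : c = -(n : ℤ) := by omega
    subst hc'
    have := walk_nat h.neg n p (by rw [nm_neg]; simpa using hp)
    rw [smul_neg] at this
    rw [neg_smul]
    exact this

/-- The constant `K`, divisible by all positive numbers up to `2 N²`. -/
def KK (N : ℕ) : ℕ := (2 * N * N + N).factorial

theorem dvd_KK {N : ℕ} {a : ℤ} (h0 : a ≠ 0) (h : |a| ≤ 2 * N * N + N) : a ∣ (KK N : ℤ) := by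
  have h1 : a.natAbs ≤ 2 * N * N + N := by
    have : ((a.natAbs : ℕ) : ℤ) ≤ ((2 * N * N + N : ℕ) : ℤ) := by
      rw [Int.natCast_natAbs]; push_cast; exact h
    exact_mod_cast this
  have h2 : a.natAbs ∣ KK N := Nat.dvd_factorial (Int.natAbs_pos.2 h0) h1
  exact Int.natAbs_dvd_natAbs.1 (by simpa using h2)

theorem one_le_KK (N : ℕ) : (1 : ℤ) ≤ KK N := by
  have := Nat.factorial_pos (2 * N * N + N)
  unfold KK
  exact_mod_cast this

/-- Parallel vectors. -/
theorem parallel {N : ℕ} {v w : ℤ × ℤ} (hv : v ≠ 0) (hvN : nm v ≤ N) (hwN : nm w ≤ N)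
    (hd : det v w = 0) : ∃ c : ℤ, (KK N : ℤ) • w = c • v ∧ |c| ≤ KK N * N := by
  have hN : (0 : ℤ) ≤ N := by positivity
  have hv1 : |v.1| ≤ N := (le_max_left _ _).trans hvN
  have hv2 : |v.2| ≤ N := (le_max_right _ _).trans hvN
  have hw1 : |w.1| ≤ N := (le_max_left _ _).trans hwN
  have hw2 : |w.2| ≤ N := (le_max_right _ _).trans hwN
  have hK := one_le_KK N
  unfold det at hd
  have key : ∀ a b : ℤ, a ≠ 0 → |a| ≤ N → |b| ≤ N →
      ∃ k : ℤ, (KK N : ℤ) = k * a ∧ |k * b| ≤ KK N * N := by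
    intro a b ha h1 h2
    obtain ⟨k, hk⟩ := dvd_KK (N := N) ha (by nlinarith)
    refine ⟨k, by rw [hk]; ring, ?_⟩
    rw [abs_mul]
    have h3 : |k| ≤ KK N := by
      have : |(KK N : ℤ)| = |a| * |k| := by rw [hk, abs_mul]
      rw [abs_of_nonneg (by linarith)] at this
      have ha' : 1 ≤ |a| := Int.one_le_abs ha
      nlinarith [abs_nonneg k]
    exact mul_le_mul h3 h2 (abs_nonneg _) (by linarith)
  by_cases h1 : v.1 = 0
  · have h2 : v.2 ≠ 0 := fun h => hv (Prod.ext h1 h)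
    have h3 : w.1 = 0 := by
      rw [h1] at hd
      have : v.2 * w.1 = 0 := by linarith
      rcases mul_eq_zero.1 this with h | h
      · exact absurd h h2
      · exact h
    obtain ⟨k, hk, hk'⟩ := key v.2 w.2 h2 hv2 hw2
    refine ⟨k * w.2, Prod.ext ?_ ?_, hk'⟩
    · simp [h1, h3]
    · simp only [Prod.smul_snd, smul_eq_mul]
      rw [hk]; ring
  · obtain ⟨k, hk, hk'⟩ := key v.1 w.1 h1 hv1 hw1
    refine ⟨k * w.1, Prod.ext ?_ ?_, hk'⟩
    · simp only [Prod.smul_fst, smul_eq_mul]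
      rw [hk]; ring
    · simp only [Prod.smul_snd, smul_eq_mul]
      rw [hk]
      have : v.1 * w.2 = v.2 * w.1 := by linarith
      linear_combination k * this

theorem det_le {N : ℕ} {v w : ℤ × ℤ} (hvN : nm v ≤ N) (hwN : nm w ≤ N) :
    |det v w| ≤ 2 * N * N := by
  have hv1 : |v.1| ≤ N := (le_max_left _ _).trans hvN
  have hv2 : |v.2| ≤ N := (le_max_right _ _).trans hvN
  have hw1 : |w.1| ≤ N := (le_max_left _ _).trans hwN
  have hw2 : |w.2| ≤ N := (le_max_right _ _).trans hwN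
  unfold det
  have h1 : |v.1 * w.2| ≤ N * N := by
    rw [abs_mul]; exact mul_le_mul hv1 hw2 (abs_nonneg _) (by positivity)
  have h2 : |v.2 * w.1| ≤ N * N := by
    rw [abs_mul]; exact mul_le_mul hv2 hw1 (abs_nonneg _) (by positivity)
  calc |v.1 * w.2 - v.2 * w.1| ≤ |v.1 * w.2| + |v.2 * w.1| := abs_sub _ _
    _ ≤ 2 * N * N := by linarith

/-- Two non-parallel vectors generate `K • u`. -/
theorem cramer {N : ℕ} {v w u : ℤ × ℤ} (hvN : nm v ≤ N) (hwN : nm w ≤ N) (huN : nm u ≤ N)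
    (hd : det v w ≠ 0) : ∃ a b : ℤ, (KK N : ℤ) • u = a • v + b • w ∧
      |a| ≤ KK N * (2 * N * N) ∧ |b| ≤ KK N * (2 * N * N) := by
  have hK := one_le_KK N
  obtain ⟨k, hk⟩ := dvd_KK (N := N) hd (by have := det_le hvN hwN; linarith)
  have hk1 : |k| ≤ KK N := by
    have h1 : |(KK N : ℤ)| = |det v w| * |k| := by rw [hk, abs_mul]
    rw [abs_of_nonneg (by linarith)] at h1
    have h2 : 1 ≤ |det v w| := Int.one_le_abs hd
    nlinarith [abs_nonneg k]
  have hb : ∀ z : ℤ, |z| ≤ 2 * N * N → |k * z| ≤ KK N * (2 * N * N) := by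
    intro z hz
    rw [abs_mul]
    exact mul_le_mul hk1 hz (abs_nonneg _) (by linarith)
  refine ⟨k * det u w, k * det v u, Prod.ext ?_ ?_, hb _ (det_le huN hwN), hb _ (det_le hvN huN)⟩
  · simp only [Prod.smul_fst, Prod.fst_add, smul_eq_mul]
    rw [hk]; unfold det; ring
  · simp only [Prod.smul_snd, Prod.snd_add, smul_eq_mul]
    rw [hk]; unfold det; ring

/-- The radius. -/
def RR (N : ℕ) : ℕ := 4 * (KK N * N * N * N) + KK N * N * N + 4 * (KK N * N)

section main

variable {x : ℤ × ℤ → α} {N : ℕ}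

theorem loc_parallel {q v w p : ℤ × ℤ} {R : ℤ} (h : LocPer x q R v) (hv : v ≠ 0) (hvN : nm v ≤ N)
    (hwN : nm w ≤ N) (hd : det v w = 0) (hp : nm (p - q) + KK N * N * N ≤ R) :
    x (p + (KK N : ℤ) • w) = x p := by
  obtain ⟨c, hc, hc'⟩ := parallel hv hvN hwN hd
  rw [hc]
  refine walk h c p ?_
  have h1 : |c| * nm v ≤ KK N * N * N := mul_le_mul hc' hvN (nm_nonneg v) (by positivity)
  linarith

theorem loc_cramer {q v w u p : ℤ × ℤ} {R : ℤ} (h : LocPer x q R v) (h' : LocPer x q R w)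
    (hvN : nm v ≤ N) (hwN : nm w ≤ N) (huN : nm u ≤ N) (hd : det v w ≠ 0)
    (hp : nm (p - q) + 4 * (KK N * N * N * N) ≤ R) : x (p + (KK N : ℤ) • u) = x p := by
  obtain ⟨a, b, hab, ha, hb⟩ := cramer hvN hwN huN hd
  have hK := one_le_KK N
  have h1 : |a| * nm v ≤ 2 * (KK N * N * N * N) := by
    have := mul_le_mul ha hvN (nm_nonneg v) (by positivity)
    linarith
  have h2 : |b| * nm w ≤ 2 * (KK N * N * N * N) := by
    have := mul_le_mul hb hwN (nm_nonneg w) (by positivity)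
    linarith
  rw [hab, ← add_assoc]
  have h3 : nm (p + a • v - q) ≤ nm (p - q) + |a| * nm v := by
    have e : p + a • v - q = (p - q) + a • v := by abel
    rw [e]
    refine (nm_add _ _).trans ?_
    rw [nm_smul]
  rw [walk h' b (p + a • v) (by linarith)]
  exact walk h a p (by linarith [mul_nonneg (abs_nonneg b) (nm_nonneg w)])

/-- The data at every point. -/
def Hyp (x : ℤ × ℤ → α) (N : ℕ) : Prop :=
  ∀ q, ∃ v : ℤ × ℤ, v ≠ 0 ∧ nm v ≤ N ∧ LocPer x q (RR N) v

theorem line_nat (H : Hyp x N) {u s v : ℤ × ℤ} (hu : nm u ≤ N)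
    (hs : x (s + (KK N : ℤ) • u) ≠ x s) (hv : v ≠ 0) (hvN : nm v ≤ N)
    (hl : LocPer x s (RR N) v) (k : ℕ) :
    x (s + (k : ℤ) • ((KK N : ℤ) • v) + (KK N : ℤ) • u) ≠ x (s + (k : ℤ) • ((KK N : ℤ) • v)) ∧
    ∀ v', v' ≠ 0 → nm v' ≤ N → LocPer x (s + (k : ℤ) • ((KK N : ℤ) • v)) (RR N) v' →
      det v v' = 0 := by
  have hK := one_le_KK N
  have hKN : (0 : ℤ) ≤ KK N * N := by positivity
  have hKNN : (0 : ℤ) ≤ KK N * N * N := by positivity
  have hKNNN : (0 : ℤ) ≤ KK N * N * N * N := by positivity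
  have hR : ((RR N : ℕ) : ℤ) = 4 * (KK N * N * N * N) + KK N * N * N + 4 * (KK N * N) := by
    unfold RR; push_cast; ring
  induction k with
  | zero =>
    simp only [Nat.cast_zero, zero_smul, add_zero]
    refine ⟨hs, fun v' h0 h1 h2 => ?_⟩
    by_contra hd
    refine hs (loc_cramer hl h2 hvN h1 hu hd ?_)
    rw [sub_self, hR]
    simp only [nm, Prod.fst_zero, Prod.snd_zero, abs_zero, max_self]
    linarith
  | succ k ih =>
    set s' := s + (k : ℤ) • ((KK N : ℤ) • v) with hs'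
    have e : s + ((k + 1 : ℕ) : ℤ) • ((KK N : ℤ) • v) = s' + (KK N : ℤ) • v := by
      rw [hs']; push_cast; rw [add_smul, one_smul, add_assoc]
    rw [e]
    obtain ⟨ih1, ih2⟩ := ih
    obtain ⟨v', h0, h1, h2⟩ := H s'
    have hd : det v v' = 0 := ih2 v' h0 h1 h2
    have hd' : det v' v = 0 := by unfold det at hd ⊢; linarith
    have hKv : nm ((KK N : ℤ) • v) ≤ KK N * N := by
      rw [nm_smul, abs_of_nonneg (by linarith)]
      exact mul_le_mul_of_nonneg_left hvN (by linarith)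
    have hKu : nm ((KK N : ℤ) • u) ≤ KK N * N := by
      rw [nm_smul, abs_of_nonneg (by linarith)]
      exact mul_le_mul_of_nonneg_left hu (by linarith)
    have a1 : x (s' + (KK N : ℤ) • v) = x s' := by
      refine loc_parallel h2 h0 h1 hvN hd' ?_
      rw [sub_self, hR]
      simp only [nm, Prod.fst_zero, Prod.snd_zero, abs_zero, max_self]
      linarith
    have a2 : x (s' + (KK N : ℤ) • u + (KK N : ℤ) • v) = x (s' + (KK N : ℤ) • u) := by
      refine loc_parallel h2 h0 h1 hvN hd' ?_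
      rw [add_sub_cancel_left, hR]
      linarith
    have hbr : x (s' + (KK N : ℤ) • v + (KK N : ℤ) • u) ≠ x (s' + (KK N : ℤ) • v) := by
      have e2 : s' + (KK N : ℤ) • v + (KK N : ℤ) • u = s' + (KK N : ℤ) • u + (KK N : ℤ) • v := by
        abel
      rw [e2, a1, a2]
      exact ih1
    refine ⟨hbr, fun v'' g0 g1 g2 => ?_⟩
    by_contra hd2
    have hd3 : det v' v'' ≠ 0 := fun h => hd2 (det_trans h0 hd h)
    refine hbr (loc_cramer (q := s' + (KK N : ℤ) • v) (R := RR N - KK N * N)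
      (h2.mono ?_) (g2.mono ?_) h1 g1 hu hd3 ?_)
    · rw [add_sub_cancel_left]; linarith
    · rw [sub_self]
      simp only [nm, Prod.fst_zero, Prod.snd_zero, abs_zero, max_self]
      linarith
    · rw [sub_self, hR]
      simp only [nm, Prod.fst_zero, Prod.snd_zero, abs_zero, max_self]
      linarith

theorem line (H : Hyp x N) {u s v : ℤ × ℤ} (hu : nm u ≤ N)
    (hs : x (s + (KK N : ℤ) • u) ≠ x s) (hv : v ≠ 0) (hvN : nm v ≤ N)
    (hl : LocPer x s (RR N) v) (k : ℤ) :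
    x (s + k • ((KK N : ℤ) • v) + (KK N : ℤ) • u) ≠ x (s + k • ((KK N : ℤ) • v)) ∧
    ∀ v', v' ≠ 0 → nm v' ≤ N → LocPer x (s + k • ((KK N : ℤ) • v)) (RR N) v' →
      det v v' = 0 := by
  rcases le_total 0 k with hk | hk
  · obtain ⟨n, rfl⟩ := Int.eq_ofNat_of_zero_le hk
    exact line_nat H hu hs hv hvN hl n
  · obtain ⟨n, hn⟩ := Int.eq_ofNat_of_zero_le (neg_nonneg.2 hk)
    have hk' : k = -(n : ℤ) := by omega
    subst hk'
    have h := line_nat H hu hs (neg_ne_zero.2 hv) (by rw [nm_neg]; exact hvN) hl.neg n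
    have e : s + -(n : ℤ) • ((KK N : ℤ) • v) = s + (n : ℤ) • ((KK N : ℤ) • -v) := by
      rw [smul_neg, smul_neg, neg_smul]
    rw [e]
    refine ⟨h.1, fun v' h0 h1 h2 => ?_⟩
    have := h.2 v' h0 h1 h2
    unfold det at this ⊢
    simp only [Prod.fst_neg, Prod.snd_neg] at this
    linarith

/-- Rounding: two non-parallel lines come close. -/
theorem round {v v' w : ℤ × ℤ} (hvN : nm v ≤ N) (hvN' : nm v' ≤ N) (hd : det v v' ≠ 0) :
    ∃ k l : ℤ, nm (w - k • ((KK N : ℤ) • v) - l • ((KK N : ℤ) • v')) ≤ 2 * (KK N * N) := by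
  have hK := one_le_KK N
  set D := det v v' with hD
  have hKD : (KK N : ℤ) * D ≠ 0 := mul_ne_zero (by linarith) hd
  set a := det w v' with ha
  set b := det v w with hb
  refine ⟨a / (KK N * D), b / (KK N * D), ?_⟩
  set k := a / (KK N * D) with hk
  set l := b / (KK N * D) with hl
  have h1 : (KK N * D) * k + a % (KK N * D) = a := Int.mul_ediv_add_emod _ _
  have h2 : (KK N * D) * l + b % (KK N * D) = b := Int.mul_ediv_add_emod _ _
  have r1 := Int.emod_lt_abs a hKD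
  have r2 := Int.emod_lt_abs b hKD
  have r1' := Int.emod_nonneg a hKD
  have r2' := Int.emod_nonneg b hKD
  set r := a % (KK N * D)
  set t := b % (KK N * D)
  set z := w - k • ((KK N : ℤ) • v) - l • ((KK N : ℤ) • v') with hz
  have e : D • z = r • v + t • v' := by
    apply Prod.ext
    · simp only [hz, Prod.smul_fst, Prod.fst_add, Prod.fst_sub, smul_eq_mul]
      have : D * w.1 = a * v.1 + b * v'.1 := by rw [hD, ha, hb]; unfold det; ring
      linear_combination this - v.1 * h1 - v'.1 * h2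
    · simp only [hz, Prod.smul_snd, Prod.snd_add, Prod.snd_sub, smul_eq_mul]
      have : D * w.2 = a * v.2 + b * v'.2 := by rw [hD, ha, hb]; unfold det; ring
      linear_combination this - v.2 * h1 - v'.2 * h2
  have h3 : |D| * nm z ≤ |D| * (2 * (KK N * N)) := by
    rw [← nm_smul, e]
    refine (nm_add _ _).trans ?_
    rw [nm_smul, nm_smul, abs_of_nonneg r1', abs_of_nonneg r2']
    rw [abs_mul, abs_of_nonneg (by linarith : (0 : ℤ) ≤ KK N)] at r1 r2
    have h4 : r * nm v ≤ (KK N * |D|) * N := mul_le_mul r1.le hvN (nm_nonneg _) (by positivity)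
    have h5 : t * nm v' ≤ (KK N * |D|) * N := mul_le_mul r2.le hvN' (nm_nonneg _) (by positivity)
    linarith
  exact le_of_mul_le_mul_left h3 (abs_pos.2 hd)

theorem breaks_parallel (H : Hyp x N) {u s v u' s' v' : ℤ × ℤ} (hu : nm u ≤ N)
    (hs : x (s + (KK N : ℤ) • u) ≠ x s) (hv : v ≠ 0) (hvN : nm v ≤ N)
    (hl : LocPer x s (RR N) v) (hu' : nm u' ≤ N)
    (hs' : x (s' + (KK N : ℤ) • u') ≠ x s') (hv' : v' ≠ 0) (hvN' : nm v' ≤ N)
    (hl' : LocPer x s' (RR N) v') : det v v' = 0 := by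
  by_contra hd
  have hK := one_le_KK N
  have hKN : (0 : ℤ) ≤ KK N * N := by positivity
  have hKNN : (0 : ℤ) ≤ KK N * N * N := by positivity
  have hKNNN : (0 : ℤ) ≤ KK N * N * N * N := by positivity
  have hR : ((RR N : ℕ) : ℤ) = 4 * (KK N * N * N * N) + KK N * N * N + 4 * (KK N * N) := by
    unfold RR; push_cast; ring
  obtain ⟨k, l, hkl⟩ := round (w := s' - s) hvN hvN' hd
  obtain ⟨b1, b2⟩ := line H hu hs hv hvN hl k
  obtain ⟨-, b3⟩ := line H hu' hs' hv' hvN' hl' (-l)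
  set t := s + k • ((KK N : ℤ) • v) with ht
  set t' := s' + (-l) • ((KK N : ℤ) • v') with ht'
  have hdist : nm (t - t') ≤ 2 * (KK N * N) := by
    rw [← nm_neg]
    have e : -(t - t') = s' - s - k • ((KK N : ℤ) • v) - l • ((KK N : ℤ) • v') := by
      rw [ht, ht', neg_smul]; abel
    rw [e]; exact hkl
  obtain ⟨w, w0, w1, w2⟩ := H t
  obtain ⟨w', w0', w1', w2'⟩ := H t'
  have c1 := b2 w w0 w1 w2
  have c2 := b3 w' w0' w1' w2'
  have c3 : det w' v' = 0 := by unfold det at c2 ⊢; linarith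
  have hd3 : det w w' ≠ 0 := fun h => hd (det_trans w0' (det_trans w0 c1 h) c3)
  refine b1 (loc_cramer (q := t) (R := RR N - 2 * (KK N * N)) (w2.mono ?_) (w2'.mono ?_)
    w1 w1' hu hd3 ?_)
  · rw [sub_self]
    simp only [nm, Prod.fst_zero, Prod.snd_zero, abs_zero, max_self]
    linarith
  · linarith
  · rw [sub_self, hR]
    simp only [nm, Prod.fst_zero, Prod.snd_zero, abs_zero, max_self]
    linarith

/-- **Local periods force a global period.** -/
theorem local_global (hN : 1 ≤ N) (H : Hyp x N) : ∃ v : ℤ × ℤ, v ≠ 0 ∧ nm v ≤ KK N * N ∧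
    Per x v := by
  have hK := one_le_KK N
  have hKN : (0 : ℤ) ≤ KK N * N := by positivity
  have hKNN : (0 : ℤ) ≤ KK N * N * N := by positivity
  have hKNNN : (0 : ℤ) ≤ KK N * N * N * N := by positivity
  have hR : ((RR N : ℕ) : ℤ) = 4 * (KK N * N * N * N) + KK N * N * N + 4 * (KK N * N) := by
    unfold RR; push_cast; ring
  have key : ∃ v : ℤ × ℤ, v ≠ 0 ∧ nm v ≤ N ∧ ∀ s, x (s + (KK N : ℤ) • v) = x s := by
    by_contra hcon
    push Not at hcon
    have h10 : nm ((1, 0) : ℤ × ℤ) ≤ N := by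
      simp only [nm, abs_one, abs_zero]
      have : (1 : ℤ) ≤ N := by exact_mod_cast hN
      simpa using this
    obtain ⟨s0, hs0⟩ := hcon (1, 0) (by simp) h10
    obtain ⟨v0, a0, a1, a2⟩ := H s0
    obtain ⟨s1, hs1⟩ := hcon v0 a0 a1
    obtain ⟨v1, b0, b1, b2⟩ := H s1
    have hd := breaks_parallel H h10 hs0 a0 a1 a2 a1 hs1 b0 b1 b2
    have hd' : det v1 v0 = 0 := by unfold det at hd ⊢; linarith
    refine hs1 (loc_parallel b2 b0 b1 a1 hd' ?_)
    rw [sub_self, hR]
    simp only [nm, Prod.fst_zero, Prod.snd_zero, abs_zero, max_self]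
    linarith
  obtain ⟨v, h0, h1, h2⟩ := key
  refine ⟨(KK N : ℤ) • v, ?_, ?_, h2⟩
  · intro h
    apply h0
    have : (KK N : ℤ) ≠ 0 := by linarith
    exact (smul_eq_zero.1 h).resolve_left this
  · rw [nm_smul, abs_of_nonneg (by linarith)]
    exact mul_le_mul_of_nonneg_left h1 (by linarith)

end main

end Pool.Agent.Q316.Tile
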